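import Pool.Agent.H92.SG.Stmts

set_option autoImplicit false

namespace Pool.Agent.H4.SG

open Pool.Agent.H92.SG PowerSeries

section lin
variable {R : Type} [CommRing R] {m : ℕ}

theorem pr_add_left (c : R →+* R) (u u' v : V2 R) : pr c (u + u') v = pr c u v + pr c u' v := by
  simp only [pr, Fin.sum_univ_two, Pi.add_apply, map_add]; ring

theorem pr_add_right (c : R →+* R) (u v v' : V2 R) : pr c u (v + v') = pr c u v + pr c u v' := by
  simp only [pr, Fin.sum_univ_two, Pi.add_apply]; ring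

theorem pr_smul_left (c : R →+* R) (r : R) (u v : V2 R) : pr c (r • u) v = c r * pr c u v := by
  simp only [pr, Fin.sum_univ_two, Pi.smul_apply, smul_eq_mul, map_mul]; ring

theorem pr_smul_right (c : R →+* R) (r : R) (u v : V2 R) : pr c u (r • v) = r * pr c u v := by
  simp only [pr, Fin.sum_univ_two, Pi.smul_apply, smul_eq_mul]; ring

theorem pk_add (c : R →+* R) (k : R) (e : AddChar (ZMod m) R) (a : ZMod m) (u y y' : V2 R) :
    pr c u (k • (y + y') + (2 : R) • Sv e a (y + y')) =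
      pr c u (k • y + (2 : R) • Sv e a y) + pr c u (k • y' + (2 : R) • Sv e a y') := by
  simp only [pr, Sv, Fin.sum_univ_two, Pi.add_apply, Pi.smul_apply, smul_eq_mul,
    Matrix.cons_val_zero, Matrix.cons_val_one]
  ring

theorem pk_smul (c : R →+* R) (k r : R) (e : AddChar (ZMod m) R) (a : ZMod m) (u y : V2 R) :
    pr c u (k • (r • y) + (2 : R) • Sv e a (r • y)) =
      r * pr c u (k • y + (2 : R) • Sv e a y) := by
  simp only [pr, Sv, Fin.sum_univ_two, Pi.add_apply, Pi.smul_apply, smul_eq_mul,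
    Matrix.cons_val_zero, Matrix.cons_val_one]
  ring

variable (c : R →+* R) (t : Rˣ) (e : AddChar (ZMod m) R) (N : ℕ) (a : ℕ → ZMod m)

theorem Om_add_left (x x' y : ℕ → V2 R) :
    Om c t e N a (x + x') y = Om c t e N a x y + Om c t e N a x' y := by
  simp only [Om, Pi.add_apply, pr_add_left, add_sub_add_comm, Finset.sum_add_distrib, mul_add]
  ring

theorem Om_add_right (x y y' : ℕ → V2 R) :
    Om c t e N a x (y + y') = Om c t e N a x y + Om c t e N a x y' := by
  simp only [Om, Pi.add_apply, pk_add]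
  simp only [pr_add_right, add_sub_add_comm, Finset.sum_add_distrib, mul_add]
  ring

theorem Om_smul_left (r : R) (x y : ℕ → V2 R) :
    Om c t e N a (r • x) y = c r * Om c t e N a x y := by
  simp only [Om, Pi.smul_apply, pr_smul_left, ← mul_sub, ← Finset.mul_sum]
  ring

theorem Om_smul_right (r : R) (x y : ℕ → V2 R) :
    Om c t e N a x (r • y) = r * Om c t e N a x y := by
  simp only [Om, Pi.smul_apply, pk_smul, pr_smul_right, ← mul_sub, ← Finset.mul_sum]
  ring

theorem Om_sub_left (x x' y : ℕ → V2 R) :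
    Om c t e N a (x - x') y = Om c t e N a x y - Om c t e N a x' y := by
  have h := Om_add_left c t e N a (x - x') x' y
  rw [sub_add_cancel] at h
  rw [h]; ring

theorem Om_sub_right (x y y' : ℕ → V2 R) :
    Om c t e N a x (y - y') = Om c t e N a x y - Om c t e N a x y' := by
  have h := Om_add_right c t e N a x (y - y') y'
  rw [sub_add_cancel] at h
  rw [h]; ring

theorem Om_congr {x x' y y' : ℕ → V2 R} (h : ∀ i < N, x i = x' i) (h' : ∀ i < N, y i = y' i) :
    Om c t e N a x y = Om c t e N a x' y' := by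
  unfold Om
  congr 1
  · refine Finset.sum_congr rfl fun i hi => ?_
    rw [h i (Finset.mem_range.1 hi), h' i (Finset.mem_range.1 hi)]
  · congr 1
    refine Finset.sum_congr rfl fun j hj => Finset.sum_congr rfl fun i hi => ?_
    have h1 := Finset.mem_range.1 hj
    have h2 := Finset.mem_range.1 hi
    rw [h i (by omega), h j h1, h' i (by omega), h' j h1]

end lin

section nat
variable {R R' : Type} [CommRing R] [CommRing R'] {m : ℕ}

theorem pr_nat (φ : R →+* R') (c : R →+* R) (c' : R' →+* R') (hc : ∀ r, φ (c r) = c' (φ r))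
    (u v : V2 R) : φ (pr c u v) = pr c' (fun p => φ (u p)) (fun p => φ (v p)) := by
  simp only [pr, Fin.sum_univ_two, map_add, map_mul, hc]

theorem Om_nat (φ : R →+* R') (c : R →+* R) (c' : R' →+* R') (hc : ∀ r, φ (c r) = c' (φ r))
    (t : Rˣ) (t' : R'ˣ) (ht : φ t = t') (hti : φ ((t⁻¹ : Rˣ) : R) = ((t'⁻¹ : R'ˣ) : R'))
    (e : AddChar (ZMod m) R) (e' : AddChar (ZMod m) R') (he : ∀ a, φ (e a) = e' a) (N : ℕ)
    (a : ℕ → ZMod m) (x y : ℕ → V2 R) :
    φ (Om c t e N a x y) = Om c' t' e' N a (fun i p => φ (x i p)) (fun i p => φ (y i p)) := by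
  have h1 : ∀ i, φ (pr c (x i) (((t : R) + ((t⁻¹ : Rˣ) : R)) • y i + (2 : R) • Sv e (a i) (y i))) =
      pr c' (fun p => φ (x i p)) (((t' : R') + ((t'⁻¹ : R'ˣ) : R')) • (fun p => φ (y i p)) +
        (2 : R') • Sv e' (a i) (fun p => φ (y i p))) := by
    intro i
    simp only [pr, Sv, Fin.sum_univ_two, Pi.add_apply, Pi.smul_apply, smul_eq_mul,
      Matrix.cons_val_zero, Matrix.cons_val_one, map_add, map_mul, hc, ht, hti, he, map_ofNat]
  simp only [Om, map_add, map_mul, map_sum, map_sub, h1, ht, hti, pr_nat φ c c' hc]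

theorem uu_nat (φ : R →+* R') (t : Rˣ) (t' : R'ˣ) (ht : φ t = t') (e : AddChar (ZMod m) R)
    (e' : AddChar (ZMod m) R') (he : ∀ a, φ (e a) = e' a) (a : ℕ → ZMod m) (N : ℕ) :
    ∀ (v : V2 R) (i : ℕ), (fun p => φ (uu t e a v N i p)) = uu t' e' a (fun p => φ (v p)) N i := by
  induction N with
  | zero => intro v i; rfl
  | succ N ih =>
    intro v i
    simp only [uu]
    by_cases h : N < i
    · rw [if_pos h, if_pos h]
    · rw [if_neg h, if_neg h, ih]
      congr 1
      funext p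
      fin_cases p <;> simp [Gm, ht, he]

theorem cst_nat (φ : R →+* R') (t : Rˣ) (t' : R'ˣ) (ht : φ t = t') (e : AddChar (ZMod m) R)
    (e' : AddChar (ZMod m) R') (he : ∀ a, φ (e a) = e' a) (a : ℕ → ZMod m) (N : ℕ)
    (v : V2 R) (i : ℕ) (p : Fin 2) :
    φ (cst t e N a v i p) = cst t' e' N a (fun p => φ (v p)) i p := by
  have h1 := congrFun (uu_nat φ t t' ht e e' he a N v (i + 1)) p
  have h2 := congrFun (uu_nat φ t t' ht e e' he a N v i) p
  simp only [cst, Pi.sub_apply, map_sub]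
  rw [← h1, ← h2]

end nat

/-! ### The concrete data -/

theorem om3_prim : IsPrimitiveRoot om3 3 := by
  have h := Complex.isPrimitiveRoot_exp 3 (by norm_num)
  have e : ((3 : ℕ) : ℂ) = 3 := by norm_num
  rw [e] at h
  exact h

theorem om3_rel : om3 ^ 2 + om3 + 1 = 0 := by
  have h := om3_prim.geom_sum_eq_zero (by norm_num)
  simp only [Finset.sum_range_succ, Finset.sum_range_zero] at h
  linear_combination h

theorem om3_inv : om3⁻¹ = -1 - om3 := by
  apply inv_eq_of_mul_eq_one_right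
  linear_combination -om3_rel

theorem conj_om3 : (starRingEnd ℂ) om3 = -1 - om3 := by
  rw [← om3_inv]
  unfold om3
  rw [← Complex.exp_conj, ← Complex.exp_neg]
  congr 1
  simp only [map_div₀, map_mul, map_ofNat, Complex.conj_ofReal, Complex.conj_I]
  ring

theorem conj_th3 : (starRingEnd ℂ) th3 = -th3 := by
  unfold th3
  simp only [map_add, map_mul, map_ofNat, map_one, conj_om3]
  ring

theorem cX_C (x : ℂ) : cX (C x) = C ((starRingEnd ℂ) x) := by
  unfold cX
  exact PowerSeries.map_C _ _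

theorem cX_X : cX X = X := by
  unfold cX
  exact PowerSeries.map_X _

theorem cX_tX : cX (tX : PowerSeries ℂ) = ((tX⁻¹ : (PowerSeries ℂ)ˣ) : PowerSeries ℂ) := by
  have h1 : (1 + C th3 * X : PowerSeries ℂ) * (1 + C th3 * X)⁻¹ = 1 :=
    PowerSeries.mul_inv_cancel _ (by simp)
  have h2 : (1 - C th3 * X : PowerSeries ℂ) * (1 - C th3 * X)⁻¹ = 1 :=
    PowerSeries.mul_inv_cancel _ (by simp)
  have h3 := congrArg cX h1
  simp only [map_mul, map_add, map_one, cX_C, cX_X, conj_th3] at h3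
  have h4 : cX ((1 + C th3 * X : PowerSeries ℂ)⁻¹) = (1 - C th3 * X : PowerSeries ℂ)⁻¹ := by
    have h5 : (C (-th3) : PowerSeries ℂ) = - C th3 := map_neg _ _
    rw [h5] at h3
    linear_combination (1 - C th3 * X : PowerSeries ℂ)⁻¹ * h3 -
      cX ((1 + C th3 * X : PowerSeries ℂ)⁻¹) * h2
  show cX (C om3 * (1 - C th3 * X) * (1 + C th3 * X)⁻¹) =
    C (om3⁻¹) * (1 + C th3 * X) * (1 - C th3 * X)⁻¹
  rw [map_mul, map_mul, map_sub, map_one, map_mul, h4, cX_C, cX_C, cX_X, conj_th3, conj_om3, om3_inv,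
    map_neg]
  ring

theorem conj_eC (k : ℕ) (a : ZMod (3 ^ (k + 1))) : (starRingEnd ℂ) (eC k a) = eC k (-a) := by
  rw [AddChar.map_neg_eq_conj]

theorem cX_eX (k : ℕ) (a : ZMod (3 ^ (k + 1))) : cX (eX k a) = eX k (-a) := by
  show cX (C (eC k a)) = C (eC k (-a))
  rw [cX_C, conj_eC]

theorem eC_val (k z : ℕ) : eC k ((3 ^ k * z : ℕ) : ZMod (3 ^ (k + 1))) = om3 ^ z := by
  unfold eC om3
  have h := ZMod.stdAddChar_coe (N := 3 ^ (k + 1)) ((3 ^ k * z : ℕ) : ℤ)
  rw [Int.cast_natCast] at h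
  rw [h, ← Complex.exp_nat_mul]
  congr 1
  push_cast
  have h3 : (3 : ℂ) ^ k ≠ 0 := pow_ne_zero _ (by norm_num)
  field_simp
  ring

theorem constCoeff_tX : constantCoeff (tX : PowerSeries ℂ) = (tC : ℂ) := by
  show constantCoeff (C om3 * (1 - C th3 * X) * (1 + C th3 * X)⁻¹) = om3
  simp

theorem constCoeff_eX (k : ℕ) (a : ZMod (3 ^ (k + 1))) : constantCoeff (eX k a) = eC k a := by
  show constantCoeff (C (eC k a)) = eC k a
  simp

end Pool.Agent.H4.SG
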