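import Pool.Agent.H4.SG.KL3A
import Pool.Agent.H4.SG.KL3B

set_option autoImplicit false

namespace Pool.Agent.H4.SG

open Pool.Agent.H92.SG PowerSeries

/-- The ideal `(X²)`. -/
noncomputable def I2 : Ideal (PowerSeries ℂ) := Ideal.span {(X : PowerSeries ℂ) ^ 2}

/-- The quotient map. -/
noncomputable def q2 : PowerSeries ℂ →+* (PowerSeries ℂ ⧸ I2) := Ideal.Quotient.mk I2

theorem q2_zero {f : PowerSeries ℂ} : q2 f = 0 ↔ (X : PowerSeries ℂ) ^ 2 ∣ f :=
  (Ideal.Quotient.eq_zero_iff_mem (I := I2)).trans Ideal.mem_span_singleton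

/-- The conjugation of the quotient. -/
noncomputable def c2 : (PowerSeries ℂ ⧸ I2) →+* (PowerSeries ℂ ⧸ I2) :=
  Ideal.Quotient.lift I2 (q2.comp cX) (by
    intro a ha
    unfold I2 at ha
    rw [Ideal.mem_span_singleton] at ha
    obtain ⟨b, rfl⟩ := ha
    show q2 (cX (X ^ 2 * b)) = 0
    rw [q2_zero, map_mul, map_pow, cX_X]
    exact Dvd.intro _ rfl)

theorem c2_q2 (f : PowerSeries ℂ) : q2 (cX f) = c2 (q2 f) := rfl

noncomputable def t2 : (PowerSeries ℂ ⧸ I2)ˣ := Units.map q2.toMonoidHom tX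

noncomputable def e2 (k : ℕ) : AddChar (ZMod (3 ^ (k + 1))) (PowerSeries ℂ ⧸ I2) where
  toFun a := q2 (eX k a)
  map_zero_eq_one' := by simp
  map_add_eq_mul' a b := by simp [AddChar.map_add_eq_mul]

theorem t2_val : (t2 : PowerSeries ℂ ⧸ I2) = q2 tX := rfl

theorem t2_inv : ((t2⁻¹ : (PowerSeries ℂ ⧸ I2)ˣ) : PowerSeries ℂ ⧸ I2) =
    q2 ((tX⁻¹ : (PowerSeries ℂ)ˣ) : PowerSeries ℂ) := by
  unfold t2
  rw [Units.coe_map_inv]
  rfl

theorem w_rel : q2 (C om3) ^ 2 + q2 (C om3) + 1 = 0 := by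
  rw [← map_pow, ← map_pow, ← map_add, ← map_add, ← map_one q2, ← map_one (C : ℂ →+* PowerSeries ℂ),
    ← map_add, ← map_add, om3_rel, map_zero, map_zero]

theorem e_rel : q2 X ^ 2 = 0 := by
  rw [← map_pow, q2_zero]

theorem q2_th : q2 (C th3) = 2 * q2 (C om3) + 1 := by
  unfold th3
  simp only [map_add, map_mul, map_ofNat, map_one]

theorem t2_eq : (t2 : PowerSeries ℂ ⧸ I2) =
    q2 (C om3) + 4 * q2 X + 2 * q2 (C om3) * q2 X := by
  have h1 : (1 + C th3 * X : PowerSeries ℂ) * (1 + C th3 * X)⁻¹ = 1 :=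
    PowerSeries.mul_inv_cancel _ (by simp)
  have h2 : (tX : PowerSeries ℂ) * (1 + C th3 * X) = C om3 * (1 - C th3 * X) := by
    show C om3 * (1 - C th3 * X) * (1 + C th3 * X)⁻¹ * (1 + C th3 * X) = _
    linear_combination C om3 * (1 - C th3 * X) * h1
  have h3 := congrArg q2 h2
  simp only [map_mul, map_add, map_sub, map_one, q2_th] at h3
  rw [← t2_val] at h3
  linear_combination (1 - (2 * q2 (C om3) + 1) * q2 X) * h3 +
    ((t2 : PowerSeries ℂ ⧸ I2) + q2 (C om3)) * (2 * q2 (C om3) + 1) ^ 2 * e_rel -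
    4 * q2 X * w_rel

theorem t2_inv_eq : ((t2⁻¹ : (PowerSeries ℂ ⧸ I2)ˣ) : PowerSeries ℂ ⧸ I2) =
    -1 - q2 (C om3) + 2 * q2 X - 2 * q2 (C om3) * q2 X := by
  have h : (t2 : PowerSeries ℂ ⧸ I2) * ((t2⁻¹ : (PowerSeries ℂ ⧸ I2)ˣ) : PowerSeries ℂ ⧸ I2) = 1 :=
    Units.mul_inv t2
  rw [t2_eq] at h
  linear_combination (-1 - q2 (C om3) + 2 * q2 X - 2 * q2 (C om3) * q2 X) * h -
    ((t2⁻¹ : (PowerSeries ℂ ⧸ I2)ˣ) : PowerSeries ℂ ⧸ I2) *
      ((-1 - 4 * q2 X) * w_rel + (8 - 4 * q2 (C om3) - 4 * q2 (C om3) ^ 2) * e_rel)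

theorem c2_w : c2 (q2 (C om3)) = -1 - q2 (C om3) := by
  rw [← c2_q2, cX_C, conj_om3]
  simp only [map_sub, map_neg, map_one]

theorem c2_e : c2 (q2 X) = q2 X := by
  rw [← c2_q2, cX_X]

/-- The special kernel vector as a vector of power series. -/
noncomputable def w0 (z : ℕ) : ℕ → V2 (PowerSeries ℂ) := fun i p => C (v0 z i p)

theorem e2_val (k z : ℕ) (a : ZMod (3 ^ (k + 1))) (h : a = ((3 ^ k * z : ℕ) : ZMod (3 ^ (k + 1)))) :
    e2 k a = q2 (C om3) ^ z := by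
  show q2 (C (eC k a)) = _
  rw [h, eC_val, map_pow, map_pow]

theorem w0_nat (hB : TwB) (k z : ℕ) (a : ℕ → ZMod (3 ^ (k + 1))) :
    (fun i p => q2 ((tw tX (eX k) β77 a (w0 z) - w0 z) i p)) =
      tw t2 (e2 k) β77 a (fun i p => q2 (w0 z i p)) - fun i p => q2 (w0 z i p) := by
  rw [hB.nat _ _ q2 _ tX t2 (eX k) (e2 k) rfl (fun _ => rfl) β77 a (w0 z)]
  funext i p
  simp only [Pi.sub_apply, map_sub]

theorem w0_form (hA : DihA) (hT : TwA) (hB : TwB) (k z : ℕ) (hz : z < 3) (hz0 : z ≠ 0)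
    (a : ℕ → ZMod (3 ^ (k + 1))) (hP : Pat 1 k (fun _ => z) a) :
    (X : PowerSeries ℂ) ^ 2 ∣ Om cX tX (eX k) 4 a (tw tX (eX k) β77 a (w0 z) - w0 z) (w0 z) -
      C (72 * th3) * X := by
  have a0 : a 0 = 0 := hP.1 0 (by norm_num)
  have a3 : a 3 = 0 := hP.1 1 (by norm_num)
  have a1 : a 1 = ((3 ^ k * z : ℕ) : ZMod (3 ^ (k + 1))) := (hP.2 0 (by norm_num)).1
  have a2 : a 2 = ((3 ^ k * z : ℕ) : ZMod (3 ^ (k + 1))) := (hP.2 0 (by norm_num)).2
  have hc3 : 3 * a 1 = 0 := by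
    rw [a1]
    have h1 : (3 : ZMod (3 ^ (k + 1))) * ((3 ^ k * z : ℕ) : ZMod (3 ^ (k + 1))) =
        ((3 ^ (k + 1) * z : ℕ) : ZMod (3 ^ (k + 1))) := by push_cast; ring
    rw [h1, Nat.cast_mul, ZMod.natCast_self, zero_mul]
  have e1 : e2 k (a 1) = q2 (C om3) ^ z := e2_val k z _ a1
  have hneg : -(a 1) = ((3 ^ k * (2 * z) : ℕ) : ZMod (3 ^ (k + 1))) := by
    have h1 : ((3 ^ k * (2 * z) : ℕ) : ZMod (3 ^ (k + 1))) = 2 * a 1 := by
      rw [a1]; push_cast; ring
    rw [h1]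
    linear_combination -hc3
  have e2' : e2 k (-(a 1)) = q2 (C om3) ^ (2 * z) := e2_val k (2 * z) _ hneg
  rw [← q2_zero, map_sub, Om_nat q2 cX c2 c2_q2 tX t2 rfl t2_inv.symm (eX k) (e2 k) (fun _ => rfl),
    w0_nat hB, map_mul, map_mul, map_mul, q2_th]
  have hw := w_rel
  have hfin : q2 (C 72) = 72 := by
    rw [map_ofNat, map_ofNat]
  rw [hfin, sub_eq_zero]
  have hcase : z = 1 ∨ z = 2 := by omega
  rcases hcase with rfl | rfl
  · refine calc1 hA hT c2 t2 (e2 k) (q2 (C om3)) (q2 X) w_rel e_rel t2_eq t2_inv_eq c2_w c2_e a (a 1)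
      hc3 _ ?_ ?_ ?_
    · rw [e1, pow_one]
    · rw [e2']; linear_combination hw
    · constructor <;> first | assumption | rfl | (rw [a1, a2]) |
        (simp only [w0, v0, if_true, Matrix.cons_val_zero, Matrix.cons_val_one, map_add, map_sub,
          map_neg, map_mul, map_one, map_ofNat, map_zero, Pi.zero_apply]; try ring)
  · refine calc2 hA hT c2 t2 (e2 k) (q2 (C om3)) (q2 X) w_rel e_rel t2_eq t2_inv_eq c2_w c2_e a (a 1)
      hc3 _ ?_ ?_ ?_
    · rw [e1]; linear_combination hw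
    · rw [e2']; linear_combination (q2 (C om3) ^ 2 - q2 (C om3)) * hw
    · have h21 : ¬ ((2 : ℕ) = 1) := by norm_num
      constructor <;> first | assumption | rfl | (rw [a1, a2]) |
        (simp only [w0, v0, if_neg h21, Matrix.cons_val_zero, Matrix.cons_val_one, map_add, map_sub,
          map_neg, map_mul, map_one, map_ofNat, map_zero, Pi.zero_apply]; try ring)

theorem KL3_thm (hA : DihA) (hT : TwA) (hB : TwB) (hC : TwCstStmt) (hF : TwFormStmt)
    (hK2 : KL2Stmt) (hK : BlkColStmt) : KL3Stmt := by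
  intro k z hz a hP s v r hr hs
  have hβ : β77 ∈ Bn 4 := by
    have h := hK.1 1
    simpa [nfold] using h
  have hcol : dih _ β77 a = a := by
    have h := (hK.2 1 k (fun _ => z) a hP).2 0 (by norm_num)
    simpa using h
  -- the operator `D = β - 1`
  set Dd : (ℕ → V2 (PowerSeries ℂ)) → (ℕ → V2 (PowerSeries ℂ)) :=
    fun x => tw tX (eX k) β77 a x - x with hD
  have D_add : ∀ x y, Dd (x + y) = Dd x + Dd y := by
    intro x y
    simp only [hD, hT.add]
    abel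
  have D_smul : ∀ (q : PowerSeries ℂ) x, Dd (q • x) = q • Dd x := by
    intro q x
    simp only [hD, hT.smul, smul_sub]
  have hinv : ∀ x y, Om cX tX (eX k) 4 a (tw tX (eX k) β77 a x) (tw tX (eX k) β77 a y) =
      Om cX tX (eX k) 4 a x y := by
    intro x y
    have h := hF _ _ tX (eX k) cX cX_tX (cX_eX k) 4 β77 hβ a x y
    rw [hcol] at h
    exact h
  have hDx : ∀ x y, Om cX tX (eX k) 4 a (Dd x) y =
      - Om cX tX (eX k) 4 a (tw tX (eX k) β77 a x) (Dd y) := by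
    intro x y
    simp only [hD, Om_sub_left, Om_sub_right, hinv]
    ring
  -- the constant vector
  set kk : ℕ → V2 (PowerSeries ℂ) := cst tX (eX k) 4 a (fun p => C (v p)) with hkk
  have hDk : Dd kk = 0 := by
    simp only [hD, hkk]
    rw [hC _ _ tX (eX k) 4 β77 hβ a, hcol, sub_self]
  -- decomposition of s
  have hdiv : ∀ i, i < 4 → ∀ p, ∃ u : PowerSeries ℂ, s i p = (kk + C r • w0 z) i p + X * u := by
    intro i hi p
    have h1 : constantCoeff (s i p - (kk + C r • w0 z) i p) = 0 := by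
      rw [map_sub, hs i hi p, sub_eq_zero]
      simp only [Pi.add_apply, Pi.smul_apply, smul_eq_mul, map_add, map_mul, hkk]
      rw [cst_nat constantCoeff tX tC constCoeff_tX (eX k) (eC k) (constCoeff_eX k)]
      simp [w0]
    rw [← X_dvd_iff] at h1
    obtain ⟨u, hu⟩ := h1
    exact ⟨u, by rw [← hu]; ring⟩
  choose! u hu using hdiv
  set u' : ℕ → V2 (PowerSeries ℂ) := fun i p => u i p with hu'
  set u1 : ℕ → V2 (PowerSeries ℂ) := C r • w0 z + (X : PowerSeries ℂ) • u' with hu1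
  have hs1 : ∀ i < 4, s i = (kk + u1) i := by
    intro i hi
    funext p
    rw [hu i hi p]
    simp only [hu1, hu', Pi.add_apply, Pi.smul_apply, smul_eq_mul]
    ring
  have hDs : ∀ i < 4, Dd s i = Dd (kk + u1) i := by
    intro i hi
    simp only [hD, Pi.sub_apply]
    rw [hB.loc2 _ _ tX (eX k) 4 β77 hβ a a s (kk + u1) (fun _ _ => rfl) hs1 i hi, hs1 i hi]
  have e1 : Om cX tX (eX k) 4 a (Dd s) s = Om cX tX (eX k) 4 a (Dd u1) u1 := by
    rw [Om_congr cX tX (eX k) 4 a hDs hs1, D_add, hDk, zero_add, Om_add_right, hDx u1 kk, hDk]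
    have h0 : Om cX tX (eX k) 4 a (tw tX (eX k) β77 a u1) 0 = 0 := by
      have h := Om_smul_right cX tX (eX k) 4 a 0 (tw tX (eX k) β77 a u1) 0
      rw [zero_smul, zero_mul] at h
      exact h
    rw [h0]
    ring
  show (X : PowerSeries ℂ) ^ 2 ∣ Om cX tX (eX k) 4 a (Dd s) s -
    C (72 * th3 * (Complex.normSq r : ℂ)) * X
  rw [e1]
  have e2 : Om cX tX (eX k) 4 a (Dd u1) u1 =
      cX (C r) * C r * Om cX tX (eX k) 4 a (Dd (w0 z)) (w0 z) +
      cX (C r) * X * Om cX tX (eX k) 4 a (Dd (w0 z)) u' +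
      X * C r * Om cX tX (eX k) 4 a (Dd u') (w0 z) +
      X * X * Om cX tX (eX k) 4 a (Dd u') u' := by
    rw [hu1, D_add, D_smul, D_smul, Om_add_left, Om_add_right, Om_add_right, Om_smul_left,
      Om_smul_left, Om_smul_left, Om_smul_left, Om_smul_right, Om_smul_right, Om_smul_right,
      Om_smul_right, cX_X]
    ring
  rw [e2]
  have e3 : cX (C r) * C r = C (Complex.normSq r : ℂ) := by
    rw [cX_C, ← map_mul, mul_comm, Complex.mul_conj]
  by_cases hz0 : z = 0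
  · have hr0 := hr hz0
    subst hr0
    refine ⟨Om cX tX (eX k) 4 a (Dd u') u', ?_⟩
    simp only [map_zero, mul_zero, zero_mul, Complex.ofReal_zero]
    ring
  · -- D (w0 z) is divisible by X
    have hdw : ∀ i p, ∃ d : PowerSeries ℂ, Dd (w0 z) i p = X * d := by
      intro i p
      have h1 : constantCoeff (Dd (w0 z) i p) = 0 := by
        have h2 := congrFun (congrFun (hB.nat _ _ (constantCoeff (R := ℂ)) _ tX tC (eX k) (eC k)
          constCoeff_tX (constCoeff_eX k) β77 a (w0 z)) i) p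
        simp only [hD, Pi.sub_apply, map_sub]
        rw [← h2]
        have h3 : (fun (i : ℕ) (p : Fin 2) => (constantCoeff (R := ℂ)) (w0 z i p)) = v0 z := by
          funext i p; simp [w0]
        rw [h3, hK2 k z hz hz0 a hP]
        simp [w0]
      rw [← X_dvd_iff] at h1
      exact h1
    choose d hd using hdw
    have hdd : Dd (w0 z) = (X : PowerSeries ℂ) • (d : ℕ → V2 (PowerSeries ℂ)) := by
      funext i p
      rw [hd i p]
      simp only [Pi.smul_apply, smul_eq_mul]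
    have e4 : Om cX tX (eX k) 4 a (Dd (w0 z)) u' = X * Om cX tX (eX k) 4 a d u' := by
      rw [hdd, Om_smul_left, cX_X]
    have e5 : Om cX tX (eX k) 4 a (Dd u') (w0 z) =
        - (X * Om cX tX (eX k) 4 a (tw tX (eX k) β77 a u') d) := by
      rw [hDx, hdd, Om_smul_right]
    obtain ⟨f, hf⟩ := w0_form hA hT hB k z hz hz0 a hP
    have hf' : Om cX tX (eX k) 4 a (Dd (w0 z)) (w0 z) = X ^ 2 * f + C (72 * th3) * X := by
      rw [← hf]
      ring
    rw [e3, e4, e5, hf']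
    refine ⟨C (Complex.normSq r : ℂ) * f + cX (C r) * Om cX tX (eX k) 4 a d u' -
      C r * Om cX tX (eX k) 4 a (tw tX (eX k) β77 a u') d + Om cX tX (eX k) 4 a (Dd u') u', ?_⟩
    rw [map_mul C (72 * th3)]
    ring

end Pool.Agent.H4.SG
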