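import Pool.Agent.H92.SG.Stmts

set_option autoImplicit false

namespace Pool.Agent.H4.SG

open Pool.Agent.H92.SG

/-- The state of the computation: colours and vectors on four strands. -/
structure St {R : Type} {m : ℕ} (a : ℕ → ZMod m) (s : ℕ → V2 R) (c0 c1 c2 c3 : ZMod m)
    (p0 q0 p1 q1 p2 q2 p3 q3 : R) : Prop where
  a0 : a 0 = c0
  a1 : a 1 = c1
  a2 : a 2 = c2
  a3 : a 3 = c3
  s00 : s 0 0 = p0
  s01 : s 0 1 = q0
  s10 : s 1 0 = p1
  s11 : s 1 1 = q1
  s20 : s 2 0 = p2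
  s21 : s 2 1 = q2
  s30 : s 3 0 = p3
  s31 : s 3 1 = q3

section
variable {R : Type} [CommRing R] {m : ℕ} {t : Rˣ} {e : AddChar (ZMod m) R} {a : ℕ → ZMod m}
  {s : ℕ → V2 R} {c0 c1 c2 c3 c0' c1' c2' c3' : ZMod m}
  {p0 q0 p1 q1 p2 q2 p3 q3 p0' q0' p1' q1' p2' q2' p3' q3' x y : R}

theorem st_inv0 (hA : DihA) (hT : TwA) (h : St a s c0 c1 c2 c3 p0 q0 p1 q1 p2 q2 p3 q3)
    (hx : e c0 = x) (hy : e (-c0) = y) (e1 : 2 * c0 - c1 = c0') (e2 : c0 = c1')
    (e3 : (t : R) * (x * q1) = p0') (e4 : (t : R) * (y * p1) = q0')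
    (e5 : p0 + p1 - (t : R) * (x * q1) = p1') (e6 : q0 + q1 - (t : R) * (y * p1) = q1') :
    St (dih _ (σ 0)⁻¹ a) (tw t e (σ 0)⁻¹ a s) c0' c1' c2 c3 p0' q0' p1' q1' p2 q2 p3 q3 := by
  rw [hA.σ_inv_apply, hT.σ_inv_apply]
  obtain ⟨a0, a1, a2, a3, s00, s01, s10, s11, s20, s21, s30, s31⟩ := h
  constructor <;> simp [Sv, a0, a1, a2, a3, s00, s01, s10, s11, s20, s21, s30, s31, hx, hy, e1, ← e2, e3,
    e4, ← e5, ← e6]

theorem st_inv2 (hA : DihA) (hT : TwA) (h : St a s c0 c1 c2 c3 p0 q0 p1 q1 p2 q2 p3 q3)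
    (hx : e c2 = x) (hy : e (-c2) = y) (e1 : 2 * c2 - c3 = c2') (e2 : c2 = c3')
    (e3 : (t : R) * (x * q3) = p2') (e4 : (t : R) * (y * p3) = q2')
    (e5 : p2 + p3 - (t : R) * (x * q3) = p3') (e6 : q2 + q3 - (t : R) * (y * p3) = q3') :
    St (dih _ (σ 2)⁻¹ a) (tw t e (σ 2)⁻¹ a s) c0 c1 c2' c3' p0 q0 p1 q1 p2' q2' p3' q3' := by
  rw [hA.σ_inv_apply, hT.σ_inv_apply]
  obtain ⟨a0, a1, a2, a3, s00, s01, s10, s11, s20, s21, s30, s31⟩ := h
  constructor <;> simp [Sv, a0, a1, a2, a3, s00, s01, s10, s11, s20, s21, s30, s31, hx, hy, e1, ← e2, e3,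
    e4, ← e5, ← e6]

theorem st_pos1 (hA : DihA) (hT : TwA) (h : St a s c0 c1 c2 c3 p0 q0 p1 q1 p2 q2 p3 q3)
    (hx : e c2 = x) (hy : e (-c2) = y) (e1 : c2 = c1') (e2 : 2 * c2 - c1 = c2')
    (e3 : p2 + p1 - ((t⁻¹ : Rˣ) : R) * (x * q1) = p1')
    (e4 : q2 + q1 - ((t⁻¹ : Rˣ) : R) * (y * p1) = q1')
    (e5 : ((t⁻¹ : Rˣ) : R) * (x * q1) = p2') (e6 : ((t⁻¹ : Rˣ) : R) * (y * p1) = q2') :
    St (dih _ (σ 1) a) (tw t e (σ 1) a s) c0 c1' c2' c3 p0 q0 p1' q1' p2' q2' p3 q3 := by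
  rw [hA.σ_apply, hT.σ_apply]
  obtain ⟨a0, a1, a2, a3, s00, s01, s10, s11, s20, s21, s30, s31⟩ := h
  constructor <;> simp [Sv, a0, a1, a2, a3, s00, s01, s10, s11, s20, s21, s30, s31, hx, hy, ← e1, e2, ← e3,
    ← e4, e5, e6]

end

theorem calc1 (hA : DihA) (hT : TwA) {R : Type} [CommRing R] {m : ℕ} (c : R →+* R) (t : Rˣ)
    (e : AddChar (ZMod m) R) (w ε : R) (hw : w ^ 2 + w + 1 = 0) (hε : ε ^ 2 = 0)
    (ht : (t : R) = w + 4 * ε + 2 * w * ε)
    (hti : ((t⁻¹ : Rˣ) : R) = -1 - w + 2 * ε - 2 * w * ε) (hcw : c w = -1 - w) (hcε : c ε = ε)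
    (a : ℕ → ZMod m) (col : ZMod m) (hc3 : 3 * col = 0) (s : ℕ → V2 R)
    (he1 : e col = w) (he2 : e (-col) = -1 - w)
    (h0 : St a s 0 col col 0 (1 + 2 * w) (-1 - 2 * w) (-3 - 2 * w) (-1) (2 * w) (1) (0) (0)) :
    Om c t e 4 a (tw t e β77 a s - s) s = 72 * (2 * w + 1) * ε := by
  have he0 : e 0 = 1 := e.map_zero_eq_one
  have he0' : e (-0) = 1 := by rw [neg_zero]; exact e.map_zero_eq_one
  have he3 : e (-(-col)) = w := by rw [neg_neg]; exact he1
  have h1 := st_inv2 hA hT (t := t) h0 he1 he2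
    (show _ = -col by linear_combination (1) * hc3)
    (show _ = col by ring)
    (show _ = 0 by
      rw [ht]
      ring)
    (show _ = 0 by
      rw [ht]
      ring)
    (show _ = 2 * w by
      rw [ht]
      ring)
    (show _ = 1 by
      rw [ht]
      ring)
  have h2 := st_pos1 hA hT (t := t) h1 he2 he3
    (show _ = -col by ring)
    (show _ = 0 by linear_combination (-1) * hc3)
    (show _ = -3 - 4 * ε - w - 2 * w * ε by
      rw [hti]
      linear_combination (1 + 2 * ε) * hw)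
    (show _ = 2 - 2 * ε + 2 * w + 8 * w * ε by
      rw [hti]
      linear_combination (-3 + 2 * ε - 2 * w - 4 * w * ε) * hw)
    (show _ = 4 * ε - w + 2 * w * ε by
      rw [hti]
      linear_combination (-1 - 2 * ε) * hw)
    (show _ = -3 + 2 * ε - 2 * w - 8 * w * ε by
      rw [hti]
      linear_combination (3 - 2 * ε + 2 * w + 4 * w * ε) * hw)
  have h3 := st_inv2 hA hT (t := t) h2 he0 he0'
    (show _ = -col by ring)
    (show _ = 0 by ring)
    (show _ = 4 * ε + w + 2 * w * ε by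
      rw [ht]
      ring)
    (show _ = -2 - 4 * ε - 2 * w + 4 * w * ε by
      rw [ht]
      linear_combination (2 + 4 * ε) * hw)
    (show _ = 0 by
      rw [ht]
      ring)
    (show _ = 6 * ε - 12 * w * ε by
      rw [ht]
      linear_combination (-2 - 4 * ε) * hw)
  have h4 := st_pos1 hA hT (t := t) h3 he2 he3
    (show _ = -col by ring)
    (show _ = -col by ring)
    (show _ = -1 + 12 * ε + 18 * w * ε by
      rw [hti]
      linear_combination (-4 - 6 * ε - 2 * w - 12 * w * ε) * hw + (-4 + 16 * w + 4 * w ^ 2 - 16 * w ^ 3) * hε)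
    (show _ = 3 + w + 24 * w * ε by
      rw [hti]
      linear_combination (-3 - 6 * ε - w - 4 * w * ε) * hw + (8 * w - 4 * w ^ 2 - 4 * w ^ 3) * hε)
    (show _ = -2 - 12 * ε - 18 * w * ε by
      rw [hti]
      linear_combination (4 + 6 * ε + 2 * w + 12 * w * ε) * hw + (4 - 16 * w - 4 * w ^ 2 + 16 * w ^ 3) * hε)
    (show _ = -3 - 6 * ε - w - 12 * w * ε by
      rw [hti]
      linear_combination (3 + 6 * ε + w + 4 * w * ε) * hw + (-8 * w + 4 * w ^ 2 + 4 * w ^ 3) * hε)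
  have h5 := st_inv0 hA hT (t := t) h4 he0 he0'
    (show _ = col by ring)
    (show _ = 0 by ring)
    (show _ = -1 - 14 * ε + 2 * w - 16 * w * ε by
      rw [ht]
      linear_combination (1 + 26 * ε) * hw + (96 * w + 48 * w ^ 2) * hε)
    (show _ = -22 * ε - w - 8 * w * ε by
      rw [ht]
      linear_combination (18 * ε) * hw + (48 + 96 * w + 36 * w ^ 2) * hε)
    (show _ = 1 + 26 * ε + 34 * w * ε by
      rw [ht]
      linear_combination (-1 - 26 * ε) * hw + (-96 * w - 48 * w ^ 2) * hε)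
    (show _ = 2 + 22 * ε + 32 * w * ε by
      rw [ht]
      linear_combination (-18 * ε) * hw + (-48 - 96 * w - 36 * w ^ 2) * hε)
  have h6 := st_pos1 hA hT (t := t) h5 he2 he3
    (show _ = -col by ring)
    (show _ = col by linear_combination (-1) * hc3)
    (show _ = -1 + 54 * ε - 2 * w + 30 * w * ε by
      rw [hti]
      linear_combination (-2 - 58 * ε - 32 * w * ε) * hw + (44 + 64 * w - 44 * w ^ 2 - 64 * w ^ 3) * hε)
    (show _ = -2 - 12 * ε - w - 18 * w * ε by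
      rw [hti]
      linear_combination (1 + 28 * ε + 34 * w * ε) * hw + (-52 * w - 16 * w ^ 2 + 68 * w ^ 3) * hε)
    (show _ = -40 * ε + 2 * w - 14 * w * ε by
      rw [hti]
      linear_combination (2 + 58 * ε + 32 * w * ε) * hw + (-44 - 64 * w + 44 * w ^ 2 + 64 * w ^ 3) * hε)
    (show _ = 1 + 28 * ε + 38 * w * ε by
      rw [hti]
      linear_combination (-1 - 28 * ε - 34 * w * ε) * hw + (52 * w + 16 * w ^ 2 - 68 * w ^ 3) * hε)
  have h7 := st_inv0 hA hT (t := t) h6 he1 he2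
    (show _ = 0 by linear_combination (1) * hc3)
    (show _ = col by ring)
    (show _ = 1 + 2 * w + 12 * w * ε by
      rw [ht]
      linear_combination (-1 - w - 20 * w * ε) * hw + (-48 * w - 96 * w ^ 2 - 36 * w ^ 3) * hε)
    (show _ = -1 + 48 * ε - 2 * w + 30 * w * ε by
      rw [ht]
      linear_combination (1 - 44 * ε + 2 * w - 26 * w * ε) * hw + (-216 - 444 * w - 288 * w ^ 2 - 60 * w ^ 3) * hε)
    (show _ = -3 + 40 * ε - 2 * w + 2 * w * ε by
      rw [ht]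
      linear_combination (1 + w + 20 * w * ε) * hw + (48 * w + 96 * w ^ 2 + 36 * w ^ 3) * hε)
    (show _ = -1 - 82 * ε - 56 * w * ε by
      rw [ht]
      linear_combination (-1 + 44 * ε - 2 * w + 26 * w * ε) * hw + (216 + 444 * w + 288 * w ^ 2 + 60 * w ^ 3) * hε)
  have h8 : ∃ A : ℕ → ZMod m, St A (tw t e β77 a s) 0 col col 0 (1 + 2 * w + 12 * w * ε) (-1 + 48 * ε - 2 * w + 30 * w * ε) (-3 + 40 * ε - 2 * w + 2 * w * ε) (-1 - 82 * ε - 56 * w * ε) (-40 * ε + 2 * w - 14 * w * ε) (1 + 28 * ε + 38 * w * ε) (0) (6 * ε - 12 * w * ε) := by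
    refine ⟨dih _ (σ 0)⁻¹ (dih _ (σ 1) (dih _ (σ 0)⁻¹ (dih _ (σ 1) (dih _ (σ 2)⁻¹
      (dih _ (σ 1) (dih _ (σ 2)⁻¹ a)))))), ?_⟩
    unfold β77
    rw [hT.mul, hT.mul, hT.mul, hT.mul, hT.mul, hT.mul]
    exact h7
  obtain ⟨A, h8⟩ := h8
  clear h1 h2 h3 h4 h5 h6 h7
  have d00 : (tw t e β77 a s - s) 0 0 = 12 * w * ε := by
    rw [Pi.sub_apply, Pi.sub_apply, h8.s00, h0.s00]; ring
  have d01 : (tw t e β77 a s - s) 0 1 = 48 * ε + 30 * w * ε := by
    rw [Pi.sub_apply, Pi.sub_apply, h8.s01, h0.s01]; ring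
  have d10 : (tw t e β77 a s - s) 1 0 = 40 * ε + 2 * w * ε := by
    rw [Pi.sub_apply, Pi.sub_apply, h8.s10, h0.s10]; ring
  have d11 : (tw t e β77 a s - s) 1 1 = -82 * ε - 56 * w * ε := by
    rw [Pi.sub_apply, Pi.sub_apply, h8.s11, h0.s11]; ring
  have d20 : (tw t e β77 a s - s) 2 0 = -40 * ε - 14 * w * ε := by
    rw [Pi.sub_apply, Pi.sub_apply, h8.s20, h0.s20]; ring
  have d21 : (tw t e β77 a s - s) 2 1 = 28 * ε + 38 * w * ε := by
    rw [Pi.sub_apply, Pi.sub_apply, h8.s21, h0.s21]; ring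
  have d30 : (tw t e β77 a s - s) 3 0 = 0 := by
    rw [Pi.sub_apply, Pi.sub_apply, h8.s30, h0.s30]; ring
  have d31 : (tw t e β77 a s - s) 3 1 = 6 * ε - 12 * w * ε := by
    rw [Pi.sub_apply, Pi.sub_apply, h8.s31, h0.s31]; ring
  clear h8
  generalize tw t e β77 a s - s = x at *
  have e0 := h0.a0
  have e1 := h0.a1
  have e2 := h0.a2
  have e3 := h0.a3
  have s00 := h0.s00
  have s01 := h0.s01
  have s10 := h0.s10
  have s11 := h0.s11
  have s20 := h0.s20
  have s21 := h0.s21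
  have s30 := h0.s30
  have s31 := h0.s31
  simp only [Om, Finset.sum_range_succ, Finset.sum_range_zero, pr, Fin.sum_univ_two, Sv,
    Pi.add_apply, Pi.smul_apply, smul_eq_mul, Matrix.cons_val_zero, Matrix.cons_val_one,
    Fin.isValue, e0, e1, e2, e3, he0, he0', he1, he2, neg_zero, ht, hti,
    d00, d01, d10, d11, d20, d21, d30, d31,
    s00, s01, s10, s11, s20, s21, s30, s31,
    map_add, map_sub, map_neg, map_mul, map_zero, map_one, map_ofNat, hcw, hcε]
  linear_combination (68 * ε + 256 * w * ε) * hw + (-552 - 1272 * w - 24 * w ^ 2 - 240 * w ^ 3) * hε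

theorem calc2 (hA : DihA) (hT : TwA) {R : Type} [CommRing R] {m : ℕ} (c : R →+* R) (t : Rˣ)
    (e : AddChar (ZMod m) R) (w ε : R) (hw : w ^ 2 + w + 1 = 0) (hε : ε ^ 2 = 0)
    (ht : (t : R) = w + 4 * ε + 2 * w * ε)
    (hti : ((t⁻¹ : Rˣ) : R) = -1 - w + 2 * ε - 2 * w * ε) (hcw : c w = -1 - w) (hcε : c ε = ε)
    (a : ℕ → ZMod m) (col : ZMod m) (hc3 : 3 * col = 0) (s : ℕ → V2 R)
    (he1 : e col = -1 - w) (he2 : e (-col) = w)
    (h0 : St a s 0 col col 0 (-1 + w) (1 - w) (1 + w) (1 + 3 * w) (-1 - w) (2) (0) (0)) :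
    Om c t e 4 a (tw t e β77 a s - s) s = 72 * (2 * w + 1) * ε := by
  have he0 : e 0 = 1 := e.map_zero_eq_one
  have he0' : e (-0) = 1 := by rw [neg_zero]; exact e.map_zero_eq_one
  have he3 : e (-(-col)) = -1 - w := by rw [neg_neg]; exact he1
  have h1 := st_inv2 hA hT (t := t) h0 he1 he2
    (show _ = -col by linear_combination (1) * hc3)
    (show _ = col by ring)
    (show _ = 0 by
      rw [ht]
      ring)
    (show _ = 0 by
      rw [ht]
      ring)
    (show _ = -1 - w by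
      rw [ht]
      ring)
    (show _ = 2 by
      rw [ht]
      ring)
  have h2 := st_pos1 hA hT (t := t) h1 he2 he3
    (show _ = -col by ring)
    (show _ = 0 by linear_combination (-1) * hc3)
    (show _ = 10 * ε - 2 * w + 2 * w * ε by
      rw [hti]
      linear_combination (1 - 10 * ε + 3 * w + 6 * w * ε) * hw)
    (show _ = 2 + 2 * ε + 3 * w + 4 * w * ε by
      rw [hti]
      linear_combination (-2 - w - 2 * w * ε) * hw)
    (show _ = 1 - 10 * ε + 3 * w - 2 * w * ε by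
      rw [hti]
      linear_combination (-1 + 10 * ε - 3 * w - 6 * w * ε) * hw)
    (show _ = -1 - 2 * ε - 4 * w * ε by
      rw [hti]
      linear_combination (2 + w + 2 * w * ε) * hw)
  have h3 := st_inv2 hA hT (t := t) h2 he0 he0'
    (show _ = -col by ring)
    (show _ = 0 by ring)
    (show _ = 8 * ε + 2 * w + 4 * w * ε by
      rw [ht]
      ring)
    (show _ = 1 - 2 * ε - 4 * w * ε by
      rw [ht]
      linear_combination (-1 - 2 * ε) * hw)
    (show _ = -18 * ε - 6 * w * ε by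
      rw [ht]
      ring)
    (show _ = 0 by
      rw [ht]
      linear_combination (1 + 2 * ε) * hw)
  have h4 := st_pos1 hA hT (t := t) h3 he2 he3
    (show _ = -col by ring)
    (show _ = -col by ring)
    (show _ = -2 + 24 * ε - 3 * w by
      rw [hti]
      linear_combination (2 - 6 * ε + 3 * w + 10 * w * ε) * hw + (-4 * w - 4 * w ^ 2 + 8 * w ^ 3) * hε)
    (show _ = 1 + 6 * ε + w - 12 * w * ε by
      rw [hti]
      linear_combination (2 - 16 * ε + 2 * w + 2 * w * ε) * hw + (20 + 4 * w - 20 * w ^ 2 - 4 * w ^ 3) * hε)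
    (show _ = 2 - 6 * ε + 3 * w + 6 * w * ε by
      rw [hti]
      linear_combination (-2 + 6 * ε - 3 * w - 10 * w * ε) * hw + (4 * w + 4 * w ^ 2 - 8 * w ^ 3) * hε)
    (show _ = 2 - 6 * ε + 2 * w + 12 * w * ε by
      rw [hti]
      linear_combination (-2 + 16 * ε - 2 * w - 2 * w * ε) * hw + (-20 - 4 * w + 20 * w ^ 2 + 4 * w ^ 3) * hε)
  have h5 := st_inv0 hA hT (t := t) h4 he0 he0'
    (show _ = col by ring)
    (show _ = 0 by ring)
    (show _ = -1 + 14 * ε + 22 * w * ε by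
      rw [ht]
      linear_combination (1 - 10 * ε) * hw + (24 - 36 * w - 24 * w ^ 2) * hε)
    (show _ = 3 - 2 * ε + w + 14 * w * ε by
      rw [ht]
      linear_combination (-3 - 6 * ε) * hw + (96 + 48 * w) * hε)
    (show _ = -2 + 10 * ε - 2 * w - 22 * w * ε by
      rw [ht]
      linear_combination (-1 + 10 * ε) * hw + (-24 + 36 * w + 24 * w ^ 2) * hε)
    (show _ = -1 + 8 * ε - w - 26 * w * ε by
      rw [ht]
      linear_combination (3 + 6 * ε) * hw + (-96 - 48 * w) * hε)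
  have h6 := st_pos1 hA hT (t := t) h5 he2 he3
    (show _ = -col by ring)
    (show _ = col by linear_combination (-1) * hc3)
    (show _ = 1 - 6 * ε + 2 * w + 12 * w * ε by
      rw [hti]
      linear_combination (-1 + 10 * ε - w - 28 * w * ε) * hw + (-16 * w + 68 * w ^ 2 - 52 * w ^ 3) * hε)
    (show _ = -1 - 24 * ε + w - 54 * w * ε by
      rw [hti]
      linear_combination (4 + 12 * ε + 2 * w + 26 * w * ε) * hw + (20 - 44 * w - 20 * w ^ 2 + 44 * w ^ 3) * hε)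
    (show _ = -1 + 10 * ε - w - 28 * w * ε by
      rw [hti]
      linear_combination (1 - 10 * ε + w + 28 * w * ε) * hw + (16 * w - 68 * w ^ 2 + 52 * w ^ 3) * hε)
    (show _ = 2 + 26 * ε + 40 * w * ε by
      rw [hti]
      linear_combination (-4 - 12 * ε - 2 * w - 26 * w * ε) * hw + (-20 + 44 * w + 20 * w ^ 2 - 44 * w ^ 3) * hε)
  have h7 := st_inv0 hA hT (t := t) h6 he1 he2
    (show _ = 0 by linear_combination (1) * hc3)
    (show _ = col by ring)
    (show _ = -1 - 18 * ε + w - 48 * w * ε by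
      rw [ht]
      linear_combination (1 + 22 * ε - w + 52 * w * ε) * hw + (96 + 360 * w + 372 * w ^ 2 + 108 * w ^ 3) * hε)
    (show _ = 1 + 12 * ε - w by
      rw [ht]
      linear_combination (-1 - 12 * ε + 2 * w + 16 * w * ε) * hw + (-24 * w + 36 * w ^ 2 + 24 * w ^ 3) * hε)
    (show _ = 1 + 26 * ε + w + 82 * w * ε by
      rw [ht]
      linear_combination (-1 - 22 * ε + w - 52 * w * ε) * hw + (-96 - 360 * w - 372 * w ^ 2 - 108 * w ^ 3) * hε)
    (show _ = 1 - 38 * ε + 3 * w - 40 * w * ε by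
      rw [ht]
      linear_combination (1 + 12 * ε - 2 * w - 16 * w * ε) * hw + (24 * w - 36 * w ^ 2 - 24 * w ^ 3) * hε)
  have h8 : ∃ A : ℕ → ZMod m, St A (tw t e β77 a s) 0 col col 0 (-1 - 18 * ε + w - 48 * w * ε) (1 + 12 * ε - w) (1 + 26 * ε + w + 82 * w * ε) (1 - 38 * ε + 3 * w - 40 * w * ε) (-1 + 10 * ε - w - 28 * w * ε) (2 + 26 * ε + 40 * w * ε) (-18 * ε - 6 * w * ε) (0) := by
    refine ⟨dih _ (σ 0)⁻¹ (dih _ (σ 1) (dih _ (σ 0)⁻¹ (dih _ (σ 1) (dih _ (σ 2)⁻¹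
      (dih _ (σ 1) (dih _ (σ 2)⁻¹ a)))))), ?_⟩
    unfold β77
    rw [hT.mul, hT.mul, hT.mul, hT.mul, hT.mul, hT.mul]
    exact h7
  obtain ⟨A, h8⟩ := h8
  clear h1 h2 h3 h4 h5 h6 h7
  have d00 : (tw t e β77 a s - s) 0 0 = -18 * ε - 48 * w * ε := by
    rw [Pi.sub_apply, Pi.sub_apply, h8.s00, h0.s00]; ring
  have d01 : (tw t e β77 a s - s) 0 1 = 12 * ε := by
    rw [Pi.sub_apply, Pi.sub_apply, h8.s01, h0.s01]; ring
  have d10 : (tw t e β77 a s - s) 1 0 = 26 * ε + 82 * w * ε := by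
    rw [Pi.sub_apply, Pi.sub_apply, h8.s10, h0.s10]; ring
  have d11 : (tw t e β77 a s - s) 1 1 = -38 * ε - 40 * w * ε := by
    rw [Pi.sub_apply, Pi.sub_apply, h8.s11, h0.s11]; ring
  have d20 : (tw t e β77 a s - s) 2 0 = 10 * ε - 28 * w * ε := by
    rw [Pi.sub_apply, Pi.sub_apply, h8.s20, h0.s20]; ring
  have d21 : (tw t e β77 a s - s) 2 1 = 26 * ε + 40 * w * ε := by
    rw [Pi.sub_apply, Pi.sub_apply, h8.s21, h0.s21]; ring
  have d30 : (tw t e β77 a s - s) 3 0 = -18 * ε - 6 * w * ε := by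
    rw [Pi.sub_apply, Pi.sub_apply, h8.s30, h0.s30]; ring
  have d31 : (tw t e β77 a s - s) 3 1 = 0 := by
    rw [Pi.sub_apply, Pi.sub_apply, h8.s31, h0.s31]; ring
  clear h8
  generalize tw t e β77 a s - s = x at *
  have e0 := h0.a0
  have e1 := h0.a1
  have e2 := h0.a2
  have e3 := h0.a3
  have s00 := h0.s00
  have s01 := h0.s01
  have s10 := h0.s10
  have s11 := h0.s11
  have s20 := h0.s20
  have s21 := h0.s21
  have s30 := h0.s30
  have s31 := h0.s31
  simp only [Om, Finset.sum_range_succ, Finset.sum_range_zero, pr, Fin.sum_univ_two, Sv,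
    Pi.add_apply, Pi.smul_apply, smul_eq_mul, Matrix.cons_val_zero, Matrix.cons_val_one,
    Fin.isValue, e0, e1, e2, e3, he0, he0', he1, he2, neg_zero, ht, hti,
    d00, d01, d10, d11, d20, d21, d30, d31,
    s00, s01, s10, s11, s20, s21, s30, s31,
    map_add, map_sub, map_neg, map_mul, map_zero, map_one, map_ofNat, hcw, hcε]
  linear_combination (8 * ε + 208 * w * ε) * hw + (-936 - 2304 * w - 1056 * w ^ 2 - 888 * w ^ 3) * hε

end Pool.Agent.H4.SG
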